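import Pool.Agent.Lib.MP_a31e1e_gt.H42.RoofEsc

open scoped ContDiff Manifold Topology RealInnerProductSpace
open Set Metric Filter

namespace Pool.Agent.Tight.H42

/-- the height of the core -/
lemma coreX_two (l : ℝ) (b : E2) : coreX l b 2 = -1 - l ^ 3 * (Real.sin (3 * b 0) *
    (b 1 ^ 3 + 17 * b 1 - 2 * Real.cos (3 * b 0)) / 2) := by
  have h : Real.sin (b 0) ^ 2 = 1 - Real.cos (b 0) ^ 2 := Real.sin_sq _
  simp only [coreX, cc, pl, xiX, xiY, Real.cos_two_mul, Real.sin_two_mul, Real.sin_three_mul,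
    Real.cos_three_mul, PiLp.toLp_apply, Matrix.cons_val_zero, Matrix.cons_val_one, Matrix.cons_val]
  generalize Real.sin (b 0) = S at *
  generalize Real.cos (b 0) = K at *
  linear_combination (-(l ^ 3 * S * ((2 * K - b 1) ^ 3
    + 4 * (b 1 ^ 3 - 3 * b 1 - 8 * K ^ 3 + 6 * K)) / 2)) * h

/-- points near the flat point -/
noncomputable def cur (u c y z : ℝ) : E2 := !₂[u + y, c * (4 + z)]

noncomputable def fP (y z : ℝ) : ℝ := Real.cos (2 * y) + (4 + z) * Real.cos y - 5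
noncomputable def fQ (y z : ℝ) : ℝ := Real.sin (2 * y) - (4 + z) * Real.sin y
noncomputable def fH (y z : ℝ) : ℝ :=
  -(Real.sin (3 * y) * ((4 + z) ^ 3 + 17 * (4 + z) - 2 * Real.cos (3 * y)) / 2)

lemma coreX_zero (l : ℝ) (b : E2) : coreX l b 0 = l * xiX b := by
  simp [coreX]

lemma coreX_one (l : ℝ) (b : E2) : coreX l b 1 = l * xiY b := by
  simp [coreX]

lemma core_cur {l u c : ℝ} (hs : Real.sin (3 * u) = 0) (hc : Real.cos (3 * u) = c)
    (hc2 : c ^ 2 = 1) (y z : ℝ) :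
    coreX l (cur u c y z) 0 = l * c * (Real.cos u * (fP y z + 5) + Real.sin u * fQ y z) ∧
    coreX l (cur u c y z) 1 = l * c * (-Real.sin u * (fP y z + 5) + Real.cos u * fQ y z) ∧
    coreX l (cur u c y z) 2 = -1 + l ^ 3 * fH y z := by
  have h2c : Real.cos (2 * u) = c * Real.cos u := by
    rw [show 2 * u = 3 * u - u by ring, Real.cos_sub, hs, hc]; ring
  have h2s : Real.sin (2 * u) = -(c * Real.sin u) := by
    rw [show 2 * u = 3 * u - u by ring, Real.sin_sub, hs, hc]; ring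
  have e0 : cur u c y z 0 = u + y := by simp [cur]
  have e1 : cur u c y z 1 = c * (4 + z) := by simp [cur]
  refine ⟨?_, ?_, ?_⟩
  · rw [coreX_zero]
    unfold xiX fP fQ
    rw [e0, e1, show 2 * (u + y) = 2 * u + 2 * y by ring, Real.cos_add, Real.cos_add, h2c, h2s]
    ring
  · rw [coreX_one]
    unfold xiY fP fQ
    rw [e0, e1, show 2 * (u + y) = 2 * u + 2 * y by ring, Real.sin_add, Real.sin_add, h2c, h2s]
    ring
  · rw [coreX_two, e0, e1, show 3 * (u + y) = 3 * u + 3 * y by ring, Real.sin_add, Real.cos_add,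
      hs, hc]
    unfold fH
    have hc4 : c ^ 4 = 1 := by rw [show c ^ 4 = (c ^ 2) ^ 2 by ring, hc2]; norm_num
    generalize Real.sin (3 * y) = s
    generalize Real.cos (3 * y) = k
    linear_combination (-(l ^ 3 * s * (4 + z) ^ 3 / 2) * (c ^ 2 + 1)
      - (l ^ 3 * s * 17 * (4 + z) / 2) + l ^ 3 * s * k) * hc2

lemma fP_zero : fP 0 0 = 0 := by simp [fP]; norm_num
lemma fQ_zero : fQ 0 0 = 0 := by simp [fQ]
lemma fH_zero : fH 0 0 = 0 := by simp [fH]

lemma core_diff {l u c : ℝ} (hs : Real.sin (3 * u) = 0) (hc : Real.cos (3 * u) = c)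
    (hc2 : c ^ 2 = 1) (y z : ℝ) (v : E3) :
    ⟪v, coreX l (cur u c y z) - coreX l (cur u c 0 0)⟫ =
      l * ((c * (v 0 * Real.cos u - v 1 * Real.sin u)) * fP y z +
        (c * (v 0 * Real.sin u + v 1 * Real.cos u)) * fQ y z) + v 2 * (l ^ 3 * fH y z) ∧
    ‖coreX l (cur u c y z) - coreX l (cur u c 0 0)‖ ^ 2 =
      l ^ 2 * (fP y z ^ 2 + fQ y z ^ 2) + l ^ 6 * fH y z ^ 2 := by
  obtain ⟨h0, h1, h2⟩ := core_cur (l := l) hs hc hc2 y z
  obtain ⟨g0, g1, g2⟩ := core_cur (l := l) hs hc hc2 0 0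
  rw [fP_zero, fQ_zero] at g0 g1
  rw [fH_zero] at g2
  have hsc : Real.sin u ^ 2 = 1 - Real.cos u ^ 2 := Real.sin_sq _
  rw [inner_E3, norm_sq_E3]
  simp only [PiLp.sub_apply, h0, h1, h2, g0, g1, g2]
  generalize Real.sin u = S at *
  generalize Real.cos u = K at *
  generalize fP y z = P at *
  generalize fQ y z = Q at *
  generalize fH y z = H at *
  constructor
  · ring
  · linear_combination (l ^ 2 * c ^ 2 * (P ^ 2 + Q ^ 2)) * hsc + l ^ 2 * (P ^ 2 + Q ^ 2) * hc2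

lemma fH_y (y : ℝ) : fH y 0 = 195 / 2 * fQ y 0 + Real.sin y * (1 - Real.cos y) *
    (912 + 528 * Real.cos y - 32 * Real.cos y ^ 3 - 32 * Real.cos y ^ 4) / 2 := by
  have hsc : Real.sin y ^ 2 = 1 - Real.cos y ^ 2 := Real.sin_sq _
  unfold fH fQ
  rw [Real.sin_two_mul, Real.sin_three_mul, Real.cos_three_mul]
  generalize Real.sin y = S at *
  generalize Real.cos y = K at *
  linear_combination (S * (264 - 16 * K ^ 3 + 12 * K)) * hsc

/-- estimates along the line `z = 0` -/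
lemma y_est {y : ℝ} (hk : 0 ≤ Real.cos y) :
    fP y 0 ^ 2 + fQ y 0 ^ 2 ≤ 80 * Real.sin y ^ 2 ∧ fH y 0 ^ 2 ≤ 201 ^ 2 * Real.sin y ^ 2 ∧
      Real.sin y ^ 2 / 2 ≤ 1 - Real.cos y := by
  have hsc : Real.sin y ^ 2 = 1 - Real.cos y ^ 2 := Real.sin_sq _
  have hk1 : Real.cos y ≤ 1 := Real.cos_le_one y
  have hs1 : Real.sin y ^ 2 ≤ 1 := by rw [hsc]; nlinarith
  refine ⟨?_, ?_, ?_⟩
  · unfold fP fQ
    rw [Real.sin_two_mul, Real.cos_two_mul]
    generalize Real.sin y = S at *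
    generalize Real.cos y = K at *
    have h1 : (2 * K ^ 2 - 1 + (4 + 0) * K - 5) ^ 2 = 4 * (K + 3) ^ 2 * (1 - K) ^ 2 := by ring
    have h2 : (2 * S * K - (4 + 0) * S) ^ 2 = S ^ 2 * (2 * K - 4) ^ 2 := by ring
    rw [h1, h2]
    have h3 : (1 - K) ^ 2 ≤ S ^ 2 := by rw [hsc]; nlinarith
    have h4 : 4 * (K + 3) ^ 2 ≤ 64 := by nlinarith
    have h5 : (2 * K - 4) ^ 2 ≤ 16 := by nlinarith
    have h6 : 4 * (K + 3) ^ 2 * (1 - K) ^ 2 ≤ 64 * S ^ 2 :=
      mul_le_mul h4 h3 (sq_nonneg _) (by norm_num)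
    have h7 : S ^ 2 * (2 * K - 4) ^ 2 ≤ S ^ 2 * 16 := mul_le_mul_of_nonneg_left h5 (sq_nonneg _)
    linarith
  · unfold fH
    have h1 : Real.sin (3 * y) ^ 2 ≤ 9 * Real.sin y ^ 2 := by
      rw [Real.sin_three_mul]
      generalize Real.sin y = S at *
      have h2 : (3 * S - 4 * S ^ 3) ^ 2 = S ^ 2 * (3 - 4 * S ^ 2) ^ 2 := by ring
      rw [h2]
      have h3 : (3 - 4 * S ^ 2) ^ 2 ≤ 9 := by nlinarith [sq_nonneg S]
      nlinarith [sq_nonneg S]
    have h2 : Real.cos (3 * y) ≤ 1 := Real.cos_le_one _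
    have h3 : -1 ≤ Real.cos (3 * y) := Real.neg_one_le_cos _
    generalize Real.sin (3 * y) = s at *
    generalize Real.cos (3 * y) = k at *
    have h4 : (-(s * ((4 + 0) ^ 3 + 17 * (4 + 0) - 2 * k) / 2)) ^ 2 = s ^ 2 * (66 - k) ^ 2 := by
      ring
    rw [h4]
    have h5 : (66 - k) ^ 2 ≤ 67 ^ 2 := by nlinarith
    have h6 : s ^ 2 * (66 - k) ^ 2 ≤ 9 * Real.sin y ^ 2 * 67 ^ 2 :=
      mul_le_mul h1 h5 (sq_nonneg _) (by positivity)
    linarith
  · rw [hsc]; nlinarith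

lemma cur_zero {b : E2} {c : ℝ} (h1 : b 1 = c * 4) : cur (b 0) c 0 0 = b := by
  ext i
  fin_cases i
  · simp [cur]
  · simp [cur, h1]

lemma tendsto_cur (u c : ℝ) {y z : ℝ → ℝ} (hy : Tendsto y (𝓝[>] 0) (𝓝 0))
    (hz : Tendsto z (𝓝[>] 0) (𝓝 0)) :
    Tendsto (fun s => cur u c (y s) (z s)) (𝓝[>] 0) (𝓝 (cur u c 0 0)) := by
  have h5 : Tendsto (fun s : ℝ => (![u + y s, c * (4 + z s)] : Fin 2 → ℝ)) (𝓝[>] 0)
      (𝓝 ![u + 0, c * (4 + 0)]) := by
    rw [tendsto_pi_nhds]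
    intro i
    fin_cases i
    · simpa using hy.const_add u
    · simpa using (hz.const_add 4).const_mul c
  exact ((PiLp.continuous_toLp 2 (fun _ : Fin 2 => ℝ)).tendsto _).comp h5

/-- escape for the core -/
lemma core_escape {l : ℝ} (hl : 0 < l) {b : E2} (hb : FlatB b) (v : E3) (hv : v ≠ 0) :
    ∃ κ > 0, ∃ᶠ b' in 𝓝 b, κ * ‖coreX l b' - coreX l b‖ ^ 3 ≤ ⟪v, coreX l b' - coreX l b⟫ ∧
      coreX l b' ≠ coreX l b := by
  obtain ⟨hs, hct⟩ := hb
  obtain ⟨c, hc⟩ : ∃ c, Real.cos (3 * b 0) = c := ⟨_, rfl⟩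
  have hc2 : c ^ 2 = 1 := by
    have := Real.sin_sq_add_cos_sq (3 * b 0)
    rw [hs, hc] at this
    linarith
  have hb1 : b 1 = c * 4 := by
    rw [hc] at hct
    have : b 1 * c ^ 2 = 4 * c := by rw [← hct]; ring
    rw [hc2] at this
    linarith
  have hbc := cur_zero hb1
  obtain ⟨u, hu⟩ : ∃ u, b 0 = u := ⟨_, rfl⟩
  rw [hu] at hs hc hbc
  rw [← hbc]
  obtain ⟨V0, hV0⟩ : ∃ V, V = c * (v 0 * Real.cos u - v 1 * Real.sin u) := ⟨_, rfl⟩
  obtain ⟨V1, hV1⟩ : ∃ V, V = c * (v 0 * Real.sin u + v 1 * Real.cos u) := ⟨_, rfl⟩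
  have hd := fun y z => core_diff (l := l) hs hc hc2 y z v
  simp only [← hV0, ← hV1] at hd
  have hid : Tendsto (fun t : ℝ => t) (𝓝[>] 0) (𝓝 0) := tendsto_id.mono_left nhdsWithin_le_nhds
  -- the criterion
  have crit : ∀ (κ : ℝ) (y z : ℝ → ℝ), Tendsto y (𝓝[>] 0) (𝓝 0) → Tendsto z (𝓝[>] 0) (𝓝 0) →
      (∀ᶠ s in 𝓝[>] (0 : ℝ),
        κ * ‖coreX l (cur u c (y s) (z s)) - coreX l (cur u c 0 0)‖ ^ 3 ≤
          l * (V0 * fP (y s) (z s) + V1 * fQ (y s) (z s)) + v 2 * (l ^ 3 * fH (y s) (z s)) ∧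
        0 < l * (V0 * fP (y s) (z s) + V1 * fQ (y s) (z s)) +
          v 2 * (l ^ 3 * fH (y s) (z s))) →
      ∃ᶠ b' in 𝓝 (cur u c 0 0), κ * ‖coreX l b' - coreX l (cur u c 0 0)‖ ^ 3 ≤
        ⟪v, coreX l b' - coreX l (cur u c 0 0)⟫ ∧ coreX l b' ≠ coreX l (cur u c 0 0) := by
    intro κ y z hy hz h
    apply (tendsto_cur u c hy hz).frequently
    apply Eventually.frequently
    filter_upwards [h] with s hs'
    rw [← (hd (y s) (z s)).1] at hs'
    refine ⟨hs'.1, fun heq => ?_⟩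
    have h2 := hs'.2
    rw [heq, sub_self, inner_zero_right] at h2
    exact lt_irrefl _ h2
  by_cases h0 : V0 = 0
  · -- along `y`
    obtain ⟨D, hD⟩ : ∃ D, D = 10 * l + 201 * l ^ 3 := ⟨_, rfl⟩
    have hD0 : 0 < D := by rw [hD]; positivity
    have hnorm : ∀ y, 0 ≤ Real.cos y →
        ‖coreX l (cur u c y 0) - coreX l (cur u c 0 0)‖ ≤ D * |Real.sin y| := by
      intro y hy
      obtain ⟨h1, h2, h3⟩ := y_est hy
      have h4 := (hd y 0).2
      refine (abs_le.1 (abs_le_of_sq_le_sq ?_ (by positivity))).2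
      rw [h4, mul_pow, sq_abs]
      have h5 : l ^ 2 * (fP y 0 ^ 2 + fQ y 0 ^ 2) ≤ l ^ 2 * (80 * Real.sin y ^ 2) :=
        mul_le_mul_of_nonneg_left h1 (by positivity)
      have h6 : l ^ 6 * fH y 0 ^ 2 ≤ l ^ 6 * (201 ^ 2 * Real.sin y ^ 2) :=
        mul_le_mul_of_nonneg_left h2 (by positivity)
      have h7 : D ^ 2 * Real.sin y ^ 2 = l ^ 2 * (80 * Real.sin y ^ 2) +
          l ^ 6 * (201 ^ 2 * Real.sin y ^ 2) + (20 * l ^ 2 + 4020 * l ^ 4) * Real.sin y ^ 2 := by
        rw [hD]; ring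
      have h8 : 0 ≤ (20 * l ^ 2 + 4020 * l ^ 4) * Real.sin y ^ 2 := by positivity
      linarith
    have hcospos : ∀ᶠ s in 𝓝[>] (0 : ℝ), 0 ≤ Real.cos s := by
      have : ∀ᶠ s in 𝓝 (0 : ℝ), 0 < Real.cos s :=
        continuousAt_const.eventually_lt Real.continuous_cos.continuousAt (by simp)
      exact (this.filter_mono nhdsWithin_le_nhds).mono fun s hs => hs.le
    have hsinpos : ∀ᶠ s in 𝓝[>] (0 : ℝ), 0 < Real.sin s := by
      have : ∀ᶠ s in 𝓝[>] (0 : ℝ), s < Real.pi :=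
        (eventually_lt_nhds Real.pi_pos).filter_mono nhdsWithin_le_nhds
      filter_upwards [this, self_mem_nhdsWithin] with s h1 h2
      exact Real.sin_pos_of_pos_of_lt_pi h2 h1
    obtain ⟨μ, hμ⟩ : ∃ μ, μ = V1 + 195 / 2 * l ^ 2 * v 2 := ⟨_, rfl⟩
    -- the value along `y = σ s`
    have hval : ∀ (σ s : ℝ), σ ^ 2 = 1 → σ = 1 ∨ σ = -1 →
        l * (V0 * fP (σ * s) 0 + V1 * fQ (σ * s) 0) + v 2 * (l ^ 3 * fH (σ * s) 0) =
        (σ * Real.sin s) * (l * μ * (2 * Real.cos s - 4) +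
          v 2 * l ^ 3 * ((1 - Real.cos s) *
            (912 + 528 * Real.cos s - 32 * Real.cos s ^ 3 - 32 * Real.cos s ^ 4) / 2)) := by
      intro σ s hσ hσ'
      have hcos : Real.cos (σ * s) = Real.cos s := by
        rcases hσ' with h | h <;> simp [h]
      have hsin : Real.sin (σ * s) = σ * Real.sin s := by
        rcases hσ' with h | h <;> simp [h]
      rw [h0, fH_y, hμ]
      unfold fQ
      rw [Real.sin_two_mul, hcos, hsin]
      ring
    by_cases h1 : μ = 0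
    · -- cubic growth
      have hv2 : v 2 ≠ 0 := by
        intro h2
        rw [h1, h2] at hμ
        have hV1' : V1 = 0 := by linarith
        apply hv
        have hsc := Real.sin_sq_add_cos_sq u
        have e0 : v 0 = 0 := by
          have : c ^ 2 * v 0 * (Real.sin u ^ 2 + Real.cos u ^ 2) =
              c * V0 * Real.cos u + c * V1 * Real.sin u := by rw [hV0, hV1]; ring
          rw [hc2, hsc, h0, hV1'] at this
          linarith
        have e1 : v 1 = 0 := by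
          have : c ^ 2 * v 1 * (Real.sin u ^ 2 + Real.cos u ^ 2) =
              c * V1 * Real.cos u - c * V0 * Real.sin u := by rw [hV0, hV1]; ring
          rw [hc2, hsc, h0, hV1'] at this
          linarith
        ext i
        fin_cases i
        · exact e0
        · exact e1
        · exact h2
      have hpos : 0 < |v 2| := abs_pos.2 hv2
      obtain ⟨σ, hσ, hσ'⟩ : ∃ σ : ℝ, (σ = 1 ∨ σ = -1) ∧ v 2 * σ = |v 2| := by
        rcases lt_or_gt_of_ne hv2 with h | h
        · exact ⟨-1, Or.inr rfl, by rw [abs_of_neg h]; ring⟩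
        · exact ⟨1, Or.inl rfl, by rw [abs_of_pos h]; ring⟩
      have hσ2 : σ ^ 2 = 1 := by rcases hσ with h | h <;> rw [h] <;> norm_num
      refine ⟨228 * |v 2| * l ^ 3 / D ^ 3, by positivity,
        crit _ (fun s => σ * s) (fun _ => 0) (by simpa using hid.const_mul σ)
          tendsto_const_nhds ?_⟩
      filter_upwards [hcospos, hsinpos] with s hk hS
      rw [hval σ s hσ2 hσ, h1]
      have hcos : Real.cos (σ * s) = Real.cos s := by
        rcases hσ with h | h <;> simp [h]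
      have hsin : |Real.sin (σ * s)| = Real.sin s := by
        rcases hσ with h | h <;> simp [h, abs_of_pos hS]
      have hn := hnorm (σ * s) (by rw [hcos]; exact hk)
      rw [hsin] at hn
      obtain ⟨-, -, h3⟩ := y_est hk
      have hk1 : Real.cos s ≤ 1 := Real.cos_le_one s
      generalize Real.sin s = S at *
      generalize Real.cos s = K at *
      have hP : 912 ≤ 912 + 528 * K - 32 * K ^ 3 - 32 * K ^ 4 := by
        have hK3 : K ^ 3 ≤ K := by nlinarith [sq_nonneg K]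
        have hK4 : K ^ 4 ≤ K := by nlinarith [sq_nonneg K, sq_nonneg (K ^ 2)]
        linarith
      have h5 : 228 * S ^ 2 ≤ (1 - K) * (912 + 528 * K - 32 * K ^ 3 - 32 * K ^ 4) / 2 := by
        have : (S ^ 2 / 2) * 912 ≤ (1 - K) * (912 + 528 * K - 32 * K ^ 3 - 32 * K ^ 4) :=
          mul_le_mul h3 hP (by norm_num) (by linarith)
        linarith
      have h6 : σ * S * (l * 0 * (2 * K - 4) + v 2 * l ^ 3 *
          ((1 - K) * (912 + 528 * K - 32 * K ^ 3 - 32 * K ^ 4) / 2)) =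
          (|v 2| * l ^ 3 * S) * ((1 - K) * (912 + 528 * K - 32 * K ^ 3 - 32 * K ^ 4) / 2) := by
        rw [← hσ']; ring
      rw [h6]
      have h7 : (|v 2| * l ^ 3 * S) * (228 * S ^ 2) ≤ (|v 2| * l ^ 3 * S) *
          ((1 - K) * (912 + 528 * K - 32 * K ^ 3 - 32 * K ^ 4) / 2) :=
        mul_le_mul_of_nonneg_left h5 (by positivity)
      have h8 : 0 < (|v 2| * l ^ 3 * S) * (228 * S ^ 2) := by positivity
      refine ⟨?_, by linarith⟩
      have h9 := pow_le_pow_left₀ (norm_nonneg _) hn 3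
      have h10 : 228 * |v 2| * l ^ 3 / D ^ 3 *
          ‖coreX l (cur u c (σ * s) 0) - coreX l (cur u c 0 0)‖ ^ 3 ≤
          228 * |v 2| * l ^ 3 / D ^ 3 * (D * S) ^ 3 :=
        mul_le_mul_of_nonneg_left h9 (by positivity)
      have h11 : 228 * |v 2| * l ^ 3 / D ^ 3 * (D * S) ^ 3 =
          (|v 2| * l ^ 3 * S) * (228 * S ^ 2) := by
        field_simp
      linarith
    · -- linear growth
      have hpos : 0 < |μ| := abs_pos.2 h1
      obtain ⟨σ, hσ, hσ'⟩ : ∃ σ : ℝ, (σ = 1 ∨ σ = -1) ∧ μ * σ = -|μ| := by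
        rcases lt_or_gt_of_ne h1 with h | h
        · exact ⟨1, Or.inl rfl, by rw [abs_of_neg h]; ring⟩
        · exact ⟨-1, Or.inr rfl, by rw [abs_of_pos h]; ring⟩
      have hσ2 : σ ^ 2 = 1 := by rcases hσ with h | h <;> rw [h] <;> norm_num
      have hσa : |σ| = 1 := by rcases hσ with h | h <;> rw [h] <;> norm_num
      refine ⟨l * |μ| / D ^ 3, by positivity,
        crit _ (fun s => σ * s) (fun _ => 0) (by simpa using hid.const_mul σ)
          tendsto_const_nhds ?_⟩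
      have hsm : ∀ᶠ s in 𝓝[>] (0 : ℝ), |v 2| * l ^ 3 * ((1 - Real.cos s) * 720) < l * |μ| := by
        have hc' : Continuous fun s : ℝ => |v 2| * l ^ 3 * ((1 - Real.cos s) * 720) := by
          fun_prop
        exact (hc'.continuousAt.eventually_lt continuousAt_const
          (by simp only [Real.cos_zero, sub_self, zero_mul, mul_zero]; positivity)).filter_mono
          nhdsWithin_le_nhds
      filter_upwards [hcospos, hsinpos, hsm] with s hk hS hsm
      rw [hval σ s hσ2 hσ]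
      have hcos : Real.cos (σ * s) = Real.cos s := by
        rcases hσ with h | h <;> simp [h]
      have hsin : |Real.sin (σ * s)| = Real.sin s := by
        rcases hσ with h | h <;> simp [h, abs_of_pos hS]
      have hn := hnorm (σ * s) (by rw [hcos]; exact hk)
      rw [hsin] at hn
      have hk1 : Real.cos s ≤ 1 := Real.cos_le_one s
      have hS1 : Real.sin s ≤ 1 := Real.sin_le_one s
      generalize Real.sin s = S at *
      generalize Real.cos s = K at *
      obtain ⟨R, hR⟩ : ∃ R, R = (1 - K) * (912 + 528 * K - 32 * K ^ 3 - 32 * K ^ 4) / 2 :=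
        ⟨_, rfl⟩
      have hK3 : 0 ≤ K ^ 3 := by positivity
      have hK4 : 0 ≤ K ^ 4 := by positivity
      have hK3' : K ^ 3 ≤ 1 := pow_le_one₀ hk hk1
      have hK4' : K ^ 4 ≤ 1 := pow_le_one₀ hk hk1
      have hR1 : |R| ≤ (1 - K) * 720 := by
        rw [hR, abs_of_nonneg]
        · have : (1 - K) * (912 + 528 * K - 32 * K ^ 3 - 32 * K ^ 4) ≤ (1 - K) * 1440 :=
            mul_le_mul_of_nonneg_left (by linarith) (by linarith)
          linarith
        · have : 0 ≤ (1 - K) * (912 + 528 * K - 32 * K ^ 3 - 32 * K ^ 4) :=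
            mul_nonneg (by linarith) (by linarith)
          linarith
      rw [← hR]
      have h6 : σ * S * (l * μ * (2 * K - 4) + v 2 * l ^ 3 * R) =
          S * (l * |μ| * (4 - 2 * K) + σ * v 2 * l ^ 3 * R) := by
        have : σ * S * (l * μ * (2 * K - 4)) = S * (l * |μ| * (4 - 2 * K)) := by
          have e : μ * σ = -|μ| := hσ'
          linear_combination (S * l * (2 * K - 4)) * e
        linear_combination this
      rw [h6]
      have h7 : |σ * v 2 * l ^ 3 * R| ≤ |v 2| * l ^ 3 * ((1 - K) * 720) := by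
        rw [abs_mul, abs_mul, abs_mul, hσa, one_mul, abs_of_nonneg (show 0 ≤ l ^ 3 by positivity)]
        exact mul_le_mul_of_nonneg_left hR1 (by positivity)
      have h8 := (abs_le.1 h7).1
      have h9 : l * |μ| * 2 ≤ l * |μ| * (4 - 2 * K) :=
        mul_le_mul_of_nonneg_left (by linarith) (by positivity)
      have h10 : l * |μ| ≤ l * |μ| * (4 - 2 * K) + σ * v 2 * l ^ 3 * R := by linarith
      have h11 : S * (l * |μ|) ≤ S * (l * |μ| * (4 - 2 * K) + σ * v 2 * l ^ 3 * R) :=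
        mul_le_mul_of_nonneg_left h10 hS.le
      have h12 : 0 < S * (l * |μ|) := by positivity
      refine ⟨?_, by linarith⟩
      have h13 := pow_le_pow_left₀ (norm_nonneg _) hn 3
      have h14 : l * |μ| / D ^ 3 *
          ‖coreX l (cur u c (σ * s) 0) - coreX l (cur u c 0 0)‖ ^ 3 ≤
          l * |μ| / D ^ 3 * (D * S) ^ 3 :=
        mul_le_mul_of_nonneg_left h13 (by positivity)
      have h15 : l * |μ| / D ^ 3 * (D * S) ^ 3 = l * |μ| * S ^ 3 := by
        field_simp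
      have h16 : l * |μ| * S ^ 3 ≤ S * (l * |μ|) := by
        have h17 : S ^ 2 ≤ 1 := by nlinarith
        have : l * |μ| * S * S ^ 2 ≤ l * |μ| * S * 1 :=
          mul_le_mul_of_nonneg_left h17 (by positivity)
        linarith [show l * |μ| * S * S ^ 2 = l * |μ| * S ^ 3 by ring]
      linarith
  · -- along `z`
    have hpos : 0 < |V0| := abs_pos.2 h0
    obtain ⟨σ, hσ, hσ'⟩ : ∃ σ : ℝ, (σ = 1 ∨ σ = -1) ∧ V0 * σ = |V0| := by
      rcases lt_or_gt_of_ne h0 with h | h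
      · exact ⟨-1, Or.inr rfl, by rw [abs_of_neg h]; ring⟩
      · exact ⟨1, Or.inl rfl, by rw [abs_of_pos h]; ring⟩
    have hσ2 : σ ^ 2 = 1 := by rcases hσ with h | h <;> rw [h] <;> norm_num
    refine ⟨|V0|, hpos, crit _ (fun _ => 0) (fun s => σ * s) tendsto_const_nhds
      (by simpa using hid.const_mul σ) ?_⟩
    have hsm : ∀ᶠ s in 𝓝[>] (0 : ℝ), l * s < 1 := by
      have hc' : Continuous fun s : ℝ => l * s := by fun_prop
      exact (hc'.continuousAt.eventually_lt continuousAt_const (by simp)).filter_mono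
        nhdsWithin_le_nhds
    filter_upwards [hsm, self_mem_nhdsWithin] with s h2 h3
    have h3' : (0 : ℝ) < s := h3
    have eP : fP 0 (σ * s) = σ * s := by simp [fP]; ring
    have eQ : fQ 0 (σ * s) = 0 := by simp [fQ]
    have eH : fH 0 (σ * s) = 0 := by simp [fH]
    have h4 := (hd 0 (σ * s)).2
    rw [eP, eQ, eH] at h4
    rw [eP, eQ, eH]
    have h5 : ‖coreX l (cur u c 0 (σ * s)) - coreX l (cur u c 0 0)‖ ≤ l * s := by
      refine (abs_le.1 (abs_le_of_sq_le_sq ?_ (by positivity))).2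
      rw [h4]
      apply le_of_eq
      linear_combination (l ^ 2 * s ^ 2) * hσ2
    have h6 := pow_le_pow_left₀ (norm_nonneg _) h5 3
    have h7 : l * (V0 * (σ * s) + V1 * 0) + v 2 * (l ^ 3 * 0) = |V0| * (l * s) := by
      rw [← hσ']; ring
    rw [h7]
    have h8 : 0 < l * s := by positivity
    refine ⟨mul_le_mul_of_nonneg_left (h6.trans ?_) hpos.le, by positivity⟩
    have h9 : (l * s) ^ 2 ≤ 1 := by nlinarith
    calc (l * s) ^ 3 = (l * s) ^ 2 * (l * s) := by ring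
      _ ≤ 1 * (l * s) := mul_le_mul_of_nonneg_right h9 h8.le
      _ = l * s := one_mul _

/-- FLOORESC -/
theorem floorEscape (hReg : FloorRegStatement) : FloorEscapeStatement := by
  intro ρ l hP b hb
  obtain ⟨h1, h2, h3, h4, h5, h6⟩ := hReg ρ l hP
  have hρ := hP.hρ
  have hl := hP.hl
  have hl' := hP.hl'
  have hc2 : Real.cos (3 * b 0) ^ 2 = 1 := by
    have := Real.sin_sq_add_cos_sq (3 * b 0)
    rw [hb.1] at this
    linarith
  have hb2 : b 1 ^ 2 = 16 := by
    have : (b 1 * Real.cos (3 * b 0)) ^ 2 = 16 := by rw [hb.2]; norm_num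
    rw [mul_pow, hc2] at this
    linarith
  have hnn : nn (floorX ρ l b) = 25 * l ^ 2 := by
    rw [h6, hb2]
    linear_combination (2 * l ^ 2) * hb.2
  have hlt : nn (floorX ρ l b) < ρ ^ 2 := by
    rw [hnn]
    nlinarith
  have heq := h3 b hlt
  have hfb : floorX ρ l b = coreX l b := heq.self_of_nhds
  constructor
  · have hW : WW (floorX ρ l b) = 0 := by
      rw [hfb]
      unfold WW
      have e : cc (coreX l b) = cc (pl (l * xiX b) (l * xiY b)) := by
        simp [cc, coreX, pl]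
      rw [e]
      simp only [coreX, hb.1, PiLp.toLp_apply, Matrix.cons_val]
      ring
    unfold varpi flc
    rw [hnn, hW]
    ring
  · intro v hv
    obtain ⟨κ, hκ, h⟩ := core_escape hl hb v hv
    refine ⟨κ, hκ, ?_⟩
    refine (h.and_eventually heq).mono ?_
    rintro b' ⟨⟨h7, h8⟩, h9⟩
    have h9' : floorX ρ l b' = coreX l b' := h9
    rw [h9', hfb]
    exact ⟨h7, h8⟩

end Pool.Agent.Tight.H42
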