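import Pool.Agent.Lib.MP_a31e1e_gt.H42.SigStrong

open scoped ContDiff Manifold Topology RealInnerProductSpace
open Set Metric Filter

namespace Pool.Agent.Tight.H42

lemma inner_E3 (v z : E3) : ⟪v, z⟫ = v 0 * z 0 + v 1 * z 1 + v 2 * z 2 := by
  simp [PiLp.inner_apply, Fin.sum_univ_three, mul_comm]

/-- points of the roof -/
lemma roof_pt {x y : ℝ} (hN : x ^ 2 + y ^ 2 ≤ 1 / 100) :
    ∃ w : ℝ, FS !₂[x, y, w] = 0 ∧ |w - 1| ≤ x ^ 2 + y ^ 2 ∧
      |w - 1 - (y ^ 3 - 3 * x ^ 2 * y) / 2| ≤ (x ^ 2 + y ^ 2) ^ 2 := by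
  obtain ⟨N, hNd⟩ : ∃ N, N = x ^ 2 + y ^ 2 := ⟨_, rfl⟩
  obtain ⟨C, hCd⟩ : ∃ C, C = y ^ 3 - 3 * x ^ 2 * y := ⟨_, rfl⟩
  rw [← hNd] at hN
  have hN0 : 0 ≤ N := by rw [hNd]; positivity
  have hC2 : C ^ 2 ≤ N ^ 3 := by
    have h : N ^ 3 - C ^ 2 = (x ^ 3 - 3 * x * y ^ 2) ^ 2 := by
      rw [hNd, hCd]; ring
    linarith [sq_nonneg (x ^ 3 - 3 * x * y ^ 2)]
  have hC : |C| ≤ N / 10 := by
    apply abs_le_of_sq_le_sq _ (by linarith)
    have : N ^ 3 ≤ 1 / 100 * N ^ 2 := by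
      have := mul_le_mul_of_nonneg_right hN (sq_nonneg N)
      linarith [show N * N ^ 2 = N ^ 3 by ring]
    linarith [show (N / 10) ^ 2 = 1 / 100 * N ^ 2 by ring]
  obtain ⟨hC1, hC3⟩ := abs_le.1 hC
  have hT : 0 ≤ 4 - 3 * N - C := by linarith
  obtain ⟨q, hq⟩ : ∃ q, q = √(4 - 3 * N - C) := ⟨_, rfl⟩
  have hq0 : 0 ≤ q := by rw [hq]; exact Real.sqrt_nonneg _
  have hq2 : q ^ 2 = 4 - 3 * N - C := by rw [hq]; exact Real.sq_sqrt hT
  have hq3 : q ≤ 2 := (abs_le.1 (abs_le_of_sq_le_sq (by linarith) (by norm_num))).2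
  have hq4 : 19 / 10 ≤ q := by
    by_contra hcon
    push Not at hcon
    have := mul_self_lt_mul_self hq0 hcon
    have h2 : q * q = q ^ 2 := by ring
    rw [h2, hq2] at this
    norm_num at this
    linarith
  obtain ⟨e, he⟩ : ∃ e, e = 2 - q := ⟨_, rfl⟩
  have he0 : 0 ≤ e := by linarith
  have he1 : e * (2 + q) = 3 * N + C := by rw [he]; linear_combination -hq2
  have he2 : e ≤ N := by nlinarith
  have he3 : e ^ 2 ≤ N ^ 2 := pow_le_pow_left₀ he0 he2 2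
  have he4 : 0 ≤ e ^ 2 := sq_nonneg e
  have hN2 : N ^ 2 ≤ 1 / 100 * N := by nlinarith
  have hQ : 0 ≤ 1 + C + e ^ 2 := by linarith
  obtain ⟨w, hw⟩ : ∃ w, w = √(1 + C + e ^ 2) := ⟨_, rfl⟩
  have hw0 : 0 ≤ w := by rw [hw]; exact Real.sqrt_nonneg _
  have hw2 : w ^ 2 = 1 + C + e ^ 2 := by rw [hw]; exact Real.sq_sqrt hQ
  have hw1 : (w - 1) * (w + 1) = C + e ^ 2 := by linear_combination hw2
  have hce : |C + e ^ 2| ≤ N := by rw [abs_le]; constructor <;> linarith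
  have hww : |w - 1| ≤ N := by
    have h3 : |w - 1| * |w + 1| ≤ N := by
      rw [← abs_mul, hw1]; exact hce
    have h4 : 1 ≤ |w + 1| := by
      rw [abs_of_nonneg (by linarith)]; linarith
    calc |w - 1| = |w - 1| * 1 := by ring
      _ ≤ |w - 1| * |w + 1| := mul_le_mul_of_nonneg_left h4 (abs_nonneg _)
      _ ≤ _ := h3
  refine ⟨w, ?_, ?_, ?_⟩
  · have h1 : mm !₂[x, y, w] = w ^ 2 + 3 * N - 9 := by
      simp [mm, nn, hNd]
    have h2 : tt !₂[x, y, w] = q ^ 2 := by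
      rw [hq2]
      simp [tt, nn, cc, hNd, hCd]
    unfold FS
    rw [h1, h2, hw2]
    have h3 : 1 + C + e ^ 2 + 3 * N - 9 = -4 * q := by
      rw [he]; linear_combination hq2
    rw [h3]; ring
  · rw [← hNd]; exact hww
  · rw [← hNd, ← hCd]
    have h5 : (w - 1 - C / 2) * (2 * (w + 1)) = 2 * e ^ 2 - C * (w - 1) := by
      linear_combination 2 * hw1
    have h6 : |C * (w - 1)| ≤ N / 10 * N := abs_mul_le hC hww
    have h7 : |w - 1 - C / 2| * |2 * (w + 1)| ≤ 21 / 10 * N ^ 2 := by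
      rw [← abs_mul, h5]
      obtain ⟨h8, h9⟩ := abs_le.1 h6
      rw [abs_le]
      constructor <;> linarith [sq_nonneg N]
    have h10 : 3 ≤ |2 * (w + 1)| := by
      obtain ⟨h8, h9⟩ := abs_le.1 hww
      rw [abs_of_nonneg (by linarith)]
      linarith
    have h11 : |w - 1 - C / 2| * 3 ≤ |w - 1 - C / 2| * |2 * (w + 1)| :=
      mul_le_mul_of_nonneg_left h10 (abs_nonneg _)
    linarith [sq_nonneg N]

/-- a general criterion for escape along a curve -/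
lemma roof_crit {v : E3} (a b : ℝ) (κ : ℝ) (h1 : (a, b) ≠ (0, 0))
    (h : ∀ᶠ t in 𝓝[>] (0 : ℝ), ∀ w : ℝ, |w - 1| ≤ t ^ 2 * (a ^ 2 + b ^ 2) →
      |w - 1 - t ^ 3 * ((b ^ 3 - 3 * a ^ 2 * b) / 2)| ≤ t ^ 4 * (a ^ 2 + b ^ 2) ^ 2 →
      κ * ‖(!₂[t * a, t * b, w] : E3) - !₂[0, 0, 1]‖ ^ 3 ≤
        ⟪v, (!₂[t * a, t * b, w] : E3) - !₂[0, 0, 1]⟫) :
    ∃ᶠ x in 𝓝 (!₂[0, 0, 1] : E3), FS x = 0 ∧
      κ * ‖x - !₂[0, 0, 1]‖ ^ 3 ≤ ⟪v, x - !₂[0, 0, 1]⟫ ∧ x ≠ !₂[0, 0, 1] := by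
  have hH : 0 < a ^ 2 + b ^ 2 := by
    by_contra hcon
    push Not at hcon
    apply h1
    have ha : a ^ 2 = 0 := by nlinarith [sq_nonneg a, sq_nonneg b]
    have hb : b ^ 2 = 0 := by nlinarith [sq_nonneg a, sq_nonneg b]
    rw [pow_eq_zero_iff two_ne_zero] at ha hb
    rw [ha, hb]
  have hex : ∀ t : ℝ, ∃ w : ℝ, t ^ 2 * (a ^ 2 + b ^ 2) ≤ 1 / 100 →
      FS !₂[t * a, t * b, w] = 0 ∧ |w - 1| ≤ t ^ 2 * (a ^ 2 + b ^ 2) ∧
      |w - 1 - t ^ 3 * ((b ^ 3 - 3 * a ^ 2 * b) / 2)| ≤ t ^ 4 * (a ^ 2 + b ^ 2) ^ 2 := by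
    intro t
    by_cases ht : t ^ 2 * (a ^ 2 + b ^ 2) ≤ 1 / 100
    · obtain ⟨w, h2, h3, h4⟩ := roof_pt (x := t * a) (y := t * b) (by linarith)
      refine ⟨w, fun _ => ⟨h2, by linarith, ?_⟩⟩
      have h5 : ((t * b) ^ 3 - 3 * (t * a) ^ 2 * (t * b)) / 2 =
        t ^ 3 * ((b ^ 3 - 3 * a ^ 2 * b) / 2) := by ring
      rw [← h5]
      have h6 : ((t * a) ^ 2 + (t * b) ^ 2) ^ 2 = t ^ 4 * (a ^ 2 + b ^ 2) ^ 2 := by ring
      rw [← h6]
      exact h4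
    · exact ⟨0, fun h => absurd h ht⟩
  choose w hw using hex
  have hsmall : ∀ᶠ t in 𝓝[>] (0 : ℝ), t ^ 2 * (a ^ 2 + b ^ 2) ≤ 1 / 100 := by
    have hc : Continuous fun t : ℝ => t ^ 2 * (a ^ 2 + b ^ 2) := by fun_prop
    have h2 : ∀ᶠ t in 𝓝 (0 : ℝ), t ^ 2 * (a ^ 2 + b ^ 2) < 1 / 100 :=
      hc.continuousAt.eventually_lt continuousAt_const (by norm_num)
    exact (h2.filter_mono nhdsWithin_le_nhds).mono fun t ht => ht.le
  have htend : Tendsto (fun t : ℝ => (!₂[t * a, t * b, w t] : E3)) (𝓝[>] 0)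
      (𝓝 (!₂[0, 0, 1] : E3)) := by
    have hwt : Tendsto w (𝓝[>] 0) (𝓝 1) := by
      rw [tendsto_iff_norm_sub_tendsto_zero]
      have hc : Tendsto (fun t : ℝ => t ^ 2 * (a ^ 2 + b ^ 2)) (𝓝[>] 0) (𝓝 0) := by
        have : Continuous fun t : ℝ => t ^ 2 * (a ^ 2 + b ^ 2) := by fun_prop
        have := this.tendsto 0
        simp only [ne_eq, OfNat.ofNat_ne_zero, not_false_eq_true, zero_pow, zero_mul] at this
        exact this.mono_left nhdsWithin_le_nhds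
      refine squeeze_zero' (Eventually.of_forall fun t => norm_nonneg _) ?_ hc
      filter_upwards [hsmall] with t ht
      exact (hw t ht).2.1
    have h5 : Tendsto (fun t : ℝ => (![t * a, t * b, w t] : Fin 3 → ℝ)) (𝓝[>] 0)
        (𝓝 ![0, 0, 1]) := by
      have hid : Tendsto (fun t : ℝ => t) (𝓝[>] 0) (𝓝 0) :=
        tendsto_id.mono_left nhdsWithin_le_nhds
      rw [tendsto_pi_nhds]
      intro i
      fin_cases i
      · simpa using hid.mul_const a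
      · simpa using hid.mul_const b
      · simpa using hwt
    exact ((PiLp.continuous_toLp 2 (fun _ : Fin 3 => ℝ)).tendsto _).comp h5
  apply htend.frequently
  apply Eventually.frequently
  filter_upwards [hsmall, h, self_mem_nhdsWithin] with t ht1 ht2 ht3
  obtain ⟨h2, h3, h4⟩ := hw t ht1
  refine ⟨h2, ht2 _ h3 h4, ?_⟩
  intro heq
  have e0 := congrArg (fun z : E3 => z 0) heq
  have e1 := congrArg (fun z : E3 => z 1) heq
  simp at e0 e1
  have ht3' : (0 : ℝ) < t := ht3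
  have ha : a = 0 := by rcases e0 with h | h; · linarith
                        · exact h
  have hb : b = 0 := by rcases e1 with h | h; · linarith
                        · exact h
  exact h1 (by rw [ha, hb])

lemma norm_sq_diff (a b w : ℝ) :
    ‖(!₂[a, b, w] : E3) - !₂[0, 0, 1]‖ ^ 2 = a ^ 2 + b ^ 2 + (w - 1) ^ 2 := by
  rw [norm_sq_E3]
  simp

lemma inner_diff (v : E3) (a b w : ℝ) :
    ⟪v, (!₂[a, b, w] : E3) - !₂[0, 0, 1]⟫ = v 0 * a + v 1 * b + v 2 * (w - 1) := by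
  rw [inner_E3]
  simp

/-- ROOFESC -/
theorem roofEscape : RoofEscapeStatement := by
  intro v hv
  by_cases hvh : (v 0, v 1) = ((0 : ℝ), (0 : ℝ))
  · -- vertical
    have hv0 : v 0 = 0 := congrArg Prod.fst hvh
    have hv1 : v 1 = 0 := congrArg Prod.snd hvh
    have hv2 : v 2 ≠ 0 := by
      intro h
      apply hv
      ext i
      fin_cases i
      · exact hv0
      · exact hv1
      · exact h
    have hpos : 0 < |v 2| := abs_pos.2 hv2
    obtain ⟨σ, hσ, hσ2⟩ : ∃ σ : ℝ, σ ^ 2 = 1 ∧ v 2 * σ = |v 2| := by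
      rcases lt_or_gt_of_ne hv2 with h | h
      · exact ⟨-1, by norm_num, by rw [abs_of_neg h]; ring⟩
      · exact ⟨1, by norm_num, by rw [abs_of_pos h]; ring⟩
    refine ⟨|v 2| / 16, by positivity, roof_crit 0 σ _ ?_ ?_⟩
    · intro h
      have h2 : σ = 0 := congrArg Prod.snd h
      rw [h2] at hσ
      norm_num at hσ
    · have hs : ∀ᶠ t in 𝓝[>] (0 : ℝ), t < 1 / 4 :=
        (eventually_lt_nhds (by norm_num : (0 : ℝ) < 1 / 4)).filter_mono nhdsWithin_le_nhds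
      filter_upwards [hs, self_mem_nhdsWithin] with t ht ht0 w hw1 hw2
      have ht0' : (0 : ℝ) < t := ht0
      have e1 : (0 : ℝ) ^ 2 + σ ^ 2 = 1 := by rw [hσ]; norm_num
      have e2 : (σ ^ 3 - 3 * (0 : ℝ) ^ 2 * σ) / 2 = σ / 2 := by
        rw [show σ ^ 3 = σ ^ 2 * σ by ring, hσ]; ring
      rw [e1] at hw1 hw2
      rw [e2] at hw2
      rw [inner_diff]
      obtain ⟨n, hn⟩ : ∃ n, n = ‖(!₂[t * 0, t * σ, w] : E3) - !₂[0, 0, 1]‖ := ⟨_, rfl⟩
      have hn0 : 0 ≤ n := by rw [hn]; exact norm_nonneg _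
      have hn2 : n ^ 2 = t ^ 2 + (w - 1) ^ 2 := by
        rw [hn, norm_sq_diff]
        linear_combination t ^ 2 * hσ
      rw [← hn]
      have ht2 : t ^ 2 ≤ 1 / 16 := by nlinarith
      have hw3 : (w - 1) ^ 2 ≤ t ^ 2 / 16 := by
        have := sq_le_of_abs hw1
        have h4 : (t ^ 2 * 1) ^ 2 ≤ t ^ 2 / 16 := by
          have := mul_le_mul_of_nonneg_left ht2 (sq_nonneg t)
          linarith [show (t ^ 2 * 1) ^ 2 = t ^ 2 * t ^ 2 by ring]
        linarith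
      have hn3 : n ≤ 3 / 2 * t := by
        refine (abs_le.1 (abs_le_of_sq_le_sq ?_ (by linarith))).2
        rw [hn2]
        linarith [sq_nonneg t, show (3 / 2 * t) ^ 2 = 9 / 4 * t ^ 2 by ring]
      have hn4 : n ^ 3 ≤ (3 / 2 * t) ^ 3 := pow_le_pow_left₀ hn0 hn3 3
      have ht4 : t ^ 4 ≤ t ^ 3 / 4 := by
        have : t ^ 3 * t ≤ t ^ 3 * (1 / 4) := mul_le_mul_of_nonneg_left ht.le (by positivity)
        linarith [show t ^ 3 * t = t ^ 4 by ring]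
      have h5 : v 2 * (w - 1) ≥ |v 2| * (t ^ 3 / 2) - |v 2| * (t ^ 4 * 1 ^ 2) := by
        have h6 : |v 2 * (w - 1 - t ^ 3 * (σ / 2))| ≤ |v 2| * (t ^ 4 * 1 ^ 2) := by
          rw [abs_mul]
          exact mul_le_mul_of_nonneg_left hw2 hpos.le
        have h7 := (abs_le.1 h6).1
        have h8 : v 2 * (w - 1 - t ^ 3 * (σ / 2)) = v 2 * (w - 1) - |v 2| * (t ^ 3 / 2) := by
          rw [← hσ2]; ring
        rw [h8] at h7
        linarith
      rw [hv0, hv1]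
      have h9 : |v 2| * (t ^ 4 * 1 ^ 2) ≤ |v 2| * (t ^ 3 / 4) := by
        apply mul_le_mul_of_nonneg_left _ hpos.le
        linarith
      have h10 : |v 2| / 16 * n ^ 3 ≤ |v 2| / 16 * (3 / 2 * t) ^ 3 :=
        mul_le_mul_of_nonneg_left hn4 (by positivity)
      have h11 : 0 ≤ |v 2| * t ^ 3 := by positivity
      have h12 : |v 2| / 16 * (3 / 2 * t) ^ 3 = 27 / 128 * (|v 2| * t ^ 3) := by ring
      have h13 : |v 2| * (t ^ 3 / 2) - |v 2| * (t ^ 3 / 4) = 1 / 4 * (|v 2| * t ^ 3) := by ring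
      linarith
  · have hH : 0 < v 0 ^ 2 + v 1 ^ 2 := by
      by_contra hcon
      push Not at hcon
      apply hvh
      have ha : v 0 ^ 2 = 0 := by nlinarith [sq_nonneg (v 0), sq_nonneg (v 1)]
      have hb : v 1 ^ 2 = 0 := by nlinarith [sq_nonneg (v 0), sq_nonneg (v 1)]
      rw [pow_eq_zero_iff two_ne_zero] at ha hb
      rw [ha, hb]
    refine ⟨1, one_pos, roof_crit (v 0) (v 1) _ hvh ?_⟩
    obtain ⟨H, hHd⟩ : ∃ H, H = v 0 ^ 2 + v 1 ^ 2 := ⟨_, rfl⟩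
    rw [← hHd] at hH
    have hs1 : ∀ᶠ t in 𝓝[>] (0 : ℝ), t < 1 / 6 :=
      (eventually_lt_nhds (by norm_num : (0 : ℝ) < 1 / 6)).filter_mono nhdsWithin_le_nhds
    have hs2 : ∀ᶠ t in 𝓝[>] (0 : ℝ), |v 2| * t < 1 / 2 := by
      have hc : Continuous fun t : ℝ => |v 2| * t := by fun_prop
      exact (hc.continuousAt.eventually_lt continuousAt_const (by norm_num)).filter_mono
        nhdsWithin_le_nhds
    have hs3 : ∀ᶠ t in 𝓝[>] (0 : ℝ), t ^ 2 * H < 1 := by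
      have hc : Continuous fun t : ℝ => t ^ 2 * H := by fun_prop
      exact (hc.continuousAt.eventually_lt continuousAt_const (by norm_num)).filter_mono
        nhdsWithin_le_nhds
    filter_upwards [hs1, hs2, hs3, self_mem_nhdsWithin] with t ht1 ht2 ht3 ht0 w hw1 hw2
    have ht0' : (0 : ℝ) < t := ht0
    rw [← hHd] at hw1
    rw [inner_diff]
    obtain ⟨n, hn⟩ : ∃ n, n = ‖(!₂[t * v 0, t * v 1, w] : E3) - !₂[0, 0, 1]‖ := ⟨_, rfl⟩
    have hn0 : 0 ≤ n := by rw [hn]; exact norm_nonneg _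
    have hn2 : n ^ 2 = t ^ 2 * H + (w - 1) ^ 2 := by
      rw [hn, norm_sq_diff, hHd]; ring
    rw [← hn]
    have hw3 : (w - 1) ^ 2 ≤ t ^ 2 * H := by
      have h3 := sq_le_of_abs hw1
      have h4 : (t ^ 2 * H) ^ 2 ≤ t ^ 2 * H := by
        have h5 : 0 ≤ t ^ 2 * H := by positivity
        nlinarith
      linarith
    have hn3 : n ≤ 3 / 2 := by
      refine (abs_le.1 (abs_le_of_sq_le_sq ?_ (by norm_num))).2
      rw [hn2]
      linarith
    have hn4 : n ^ 3 ≤ 2 * (t ^ 2 * H) * (3 / 2) := by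
      have h5 : n ^ 2 ≤ 2 * (t ^ 2 * H) := by rw [hn2]; linarith
      calc n ^ 3 = n ^ 2 * n := by ring
        _ ≤ 2 * (t ^ 2 * H) * (3 / 2) := mul_le_mul h5 hn3 hn0 (by positivity)
    have h6 : |v 2 * (w - 1)| ≤ |v 2| * (t ^ 2 * H) := by
      rw [abs_mul]
      exact mul_le_mul_of_nonneg_left hw1 (abs_nonneg _)
    have h7 := (abs_le.1 h6).1
    have h8 : |v 2| * (t ^ 2 * H) ≤ 1 / 2 * (t * H) := by
      have h9 : (|v 2| * t) * (t * H) ≤ 1 / 2 * (t * H) :=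
        mul_le_mul_of_nonneg_right ht2.le (by positivity)
      linarith [show (|v 2| * t) * (t * H) = |v 2| * (t ^ 2 * H) by ring]
    have h9 : v 0 * (t * v 0) + v 1 * (t * v 1) = t * H := by rw [hHd]; ring
    have h10 : t ^ 2 * H ≤ 1 / 6 * (t * H) := by
      have : t * (t * H) ≤ 1 / 6 * (t * H) := mul_le_mul_of_nonneg_right ht1.le (by positivity)
      linarith [show t * (t * H) = t ^ 2 * H by ring]
    linarith

end Pool.Agent.Tight.H42
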