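import Pool.Agent.Lib.MP_a31e1e_gt.Interfaces

open scoped ContDiff Manifold Topology RealInnerProductSpace
open Set Metric

namespace Pool.Agent.Tight.H42

lemma cc_sq_le (x : E3) : cc x ^ 2 ≤ nn x ^ 3 := by
  have h : nn x ^ 3 - cc x ^ 2 = (x 0 ^ 3 - 3 * x 0 * x 1 ^ 2) ^ 2 := by
    unfold nn cc
    ring
  linarith [sq_nonneg (x 0 ^ 3 - 3 * x 0 * x 1 ^ 2)]

lemma nn_nonneg (x : E3) : 0 ≤ nn x := by
  unfold nn
  positivity

lemma real_abs_le {c n : ℝ} (h1 : c ^ 2 ≤ n ^ 3) (h0 : 0 ≤ n) (h : n ≤ 4) : |c| ≤ 2 * n := by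
  apply abs_le_of_sq_le_sq _ (by linarith)
  have : n ^ 3 ≤ 4 * n ^ 2 := by
    have := mul_le_mul_of_nonneg_right h (sq_nonneg n)
    linarith [show n * n ^ 2 = n ^ 3 by ring]
  linarith [show (2 * n) ^ 2 = 4 * n ^ 2 by ring]

lemma abs_cc_le {x : E3} (h : nn x ≤ 4) : |cc x| ≤ 2 * nn x :=
  real_abs_le (cc_sq_le x) (nn_nonneg x) h

lemma norm_sq_E3 (x : E3) : ‖x‖ ^ 2 = x 0 ^ 2 + x 1 ^ 2 + x 2 ^ 2 := by
  rw [EuclideanSpace.norm_sq_eq]
  simp [Fin.sum_univ_three]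

/-- elementary facts at a point of the inner sheet -/
lemma inner_facts {x : E3} (hFS : FS x = 0) (hx : x ∈ PrismO) (hL : Lam x < 0)
    (htt : tt x = 4 * (ell 0 x * ell 1 x * ell 2 x)) :
    0 < √(tt x) ∧ √(tt x) ^ 2 = tt x ∧ mm x = -4 * √(tt x) := by
  have htt0 : 0 < tt x := by
    rw [htt]
    have h0 := hx 0
    have h1 := hx 1
    have h2 := hx 2
    positivity
  have hq : 0 < √(tt x) := Real.sqrt_pos.2 htt0
  have hq2 : √(tt x) ^ 2 = tt x := Real.sq_sqrt htt0.le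
  refine ⟨hq, hq2, ?_⟩
  have h1 : (mm x - 4 * √(tt x)) * (mm x + 4 * √(tt x)) = 0 := by
    have h2 : FS x = mm x ^ 2 - 16 * tt x := rfl
    rw [hFS, ← hq2] at h2
    linear_combination -h2
  rcases mul_eq_zero.1 h1 with h | h
  · exfalso
    have : Lam x = mm x - 4 * √(tt x) := rfl
    linarith
  · linarith

/-- the roof estimate -/
lemma roof_est {N C e q w : ℝ} (hN : 0 < N) (hN4 : N < 4) (hC : |C| ≤ 2 * N) (hq : 0 < q)
    (he : e = 2 - q) (h4 : 4 * e - e ^ 2 = 3 * N + C) (he0 : 0 ≤ e) (hw : 0 ≤ w)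
    (hw2 : w ^ 2 = 1 + C + e ^ 2) : (w - 1) ^ 2 ≤ 196 * N := by
  obtain ⟨hC1, hC2⟩ := abs_le.1 hC
  have he1 : e * (2 + q) = 3 * N + C := by
    rw [← h4, he]; ring
  have he2 : e ≤ 5 / 2 * N := by nlinarith
  have he3 : e ≤ 2 := by linarith
  have he4 : e ^ 2 ≤ 5 * N := by nlinarith
  have hw1 : (w - 1) * (w + 1) = C + e ^ 2 := by linear_combination hw2
  have hce : |C + e ^ 2| ≤ 7 * N := by
    rw [abs_le]
    constructor
    · have := sq_nonneg e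
      linarith
    · linarith
  have hw3 : |w - 1| ≤ 7 * N := by
    have h3 : |w - 1| * |w + 1| ≤ 7 * N := by
      rw [← abs_mul, hw1]; exact hce
    have h4 : 1 ≤ |w + 1| := by
      rw [abs_of_nonneg (by linarith)]; linarith
    calc |w - 1| = |w - 1| * 1 := by ring
      _ ≤ |w - 1| * |w + 1| := mul_le_mul_of_nonneg_left h4 (abs_nonneg _)
      _ ≤ _ := h3
  have hw4 : (w - 1) ^ 2 ≤ (7 * N) ^ 2 := by
    rw [← sq_abs]
    exact pow_le_pow_left₀ (abs_nonneg _) hw3 2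
  have h5 : (7 * N) ^ 2 ≤ 196 * N := by nlinarith
  linarith

lemma abs_mul_le {a b A B : ℝ} (ha : |a| ≤ A) (hb : |b| ≤ B) : |a * b| ≤ A * B := by
  rw [abs_mul]
  exact mul_le_mul ha hb (abs_nonneg _) ((abs_nonneg _).trans ha)

lemma flc_le {l : ℝ} {x : E3} (hl : 0 < l) (hl' : l ≤ 1 / 100) (hn : 0 ≤ nn x)
    (hn4 : nn x < 4) (hcc : |cc x| ≤ 2 * nn x) (hx2 : |x 2| ≤ 5) : flc l x ≤ 200 := by
  have hl2 : 25 * l ^ 2 ≤ 1 := by nlinarith
  have hl0 : 0 ≤ 25 * l ^ 2 := by positivity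
  have h1 : (nn x - 25 * l ^ 2) ^ 2 ≤ 4 ^ 2 := by
    rw [← sq_abs]
    refine pow_le_pow_left₀ (abs_nonneg _) ?_ 2
    rw [abs_le]
    constructor <;> linarith
  have h2 : WW x ^ 2 ≤ 10 ^ 2 := by
    rw [← sq_abs]
    refine pow_le_pow_left₀ (abs_nonneg _) ?_ 2
    obtain ⟨h3, h4⟩ := abs_le.1 hcc
    obtain ⟨h5, h6⟩ := abs_le.1 hx2
    rw [abs_le]
    unfold WW
    constructor <;> linarith
  unfold flc
  linarith

lemma sq_le_of_abs {a A : ℝ} (h : |a| ≤ A) : a ^ 2 ≤ A ^ 2 := by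
  rw [← sq_abs]
  exact pow_le_pow_left₀ (abs_nonneg _) h 2

/-- bounds for the derivatives -/
lemma gh_bounds {x : E3} (hx0 : |x 0| ≤ 2) (hx1 : |x 1| ≤ 2) (hx2 : |x 2| ≤ 5)
    (hm8 : |mm x| ≤ 8) : (∀ i, |gFS x i| ≤ 1000) ∧ ∀ i j, |hFS x i j| ≤ 1000 := by
  obtain ⟨a0, b0⟩ := abs_le.1 hx0
  obtain ⟨a1, b1⟩ := abs_le.1 hx1
  obtain ⟨a2, b2⟩ := abs_le.1 hx2
  obtain ⟨am, bm⟩ := abs_le.1 hm8
  obtain ⟨m0, m0'⟩ := abs_le.1 (abs_mul_le hm8 hx0)
  obtain ⟨m1, m1'⟩ := abs_le.1 (abs_mul_le hm8 hx1)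
  obtain ⟨m2, m2'⟩ := abs_le.1 (abs_mul_le hm8 hx2)
  obtain ⟨p01, p01'⟩ := abs_le.1 (abs_mul_le hx0 hx1)
  obtain ⟨p02, p02'⟩ := abs_le.1 (abs_mul_le hx0 hx2)
  obtain ⟨p12, p12'⟩ := abs_le.1 (abs_mul_le hx1 hx2)
  have h00 : 0 ≤ x 0 ^ 2 := sq_nonneg _
  have h11 : 0 ≤ x 1 ^ 2 := sq_nonneg _
  have h22 : 0 ≤ x 2 ^ 2 := sq_nonneg _
  have hx0' := sq_le_of_abs hx0
  have hx1' := sq_le_of_abs hx1
  have hx2' := sq_le_of_abs hx2
  clear hx0 hx1 hx2 hm8
  constructor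
  · intro i
    fin_cases i
    · change |12 * mm x * x 0 + 96 * x 0 - 96 * x 0 * x 1| ≤ 1000
      rw [abs_le]; constructor <;> linarith
    · change |12 * mm x * x 1 + 96 * x 1 + 48 * x 1 ^ 2 - 48 * x 0 ^ 2| ≤ 1000
      rw [abs_le]; constructor <;> linarith
    · change |4 * mm x * x 2| ≤ 1000
      rw [abs_le]; constructor <;> linarith
  · intro i j
    fin_cases i <;> fin_cases j
    · change |72 * x 0 ^ 2 + 12 * mm x + 96 - 96 * x 1| ≤ 1000
      rw [abs_le]; constructor <;> linarith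
    · change |72 * x 0 * x 1 - 96 * x 0| ≤ 1000
      rw [abs_le]; constructor <;> linarith
    · change |24 * x 0 * x 2| ≤ 1000
      rw [abs_le]; constructor <;> linarith
    · change |72 * x 0 * x 1 - 96 * x 0| ≤ 1000
      rw [abs_le]; constructor <;> linarith
    · change |72 * x 1 ^ 2 + 12 * mm x + 96 + 96 * x 1| ≤ 1000
      rw [abs_le]; constructor <;> linarith
    · change |24 * x 1 * x 2| ≤ 1000
      rw [abs_le]; constructor <;> linarith
    · change |24 * x 0 * x 2| ≤ 1000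
      rw [abs_le]; constructor <;> linarith
    · change |24 * x 1 * x 2| ≤ 1000
      rw [abs_le]; constructor <;> linarith
    · change |8 * x 2 ^ 2 + 4 * mm x| ≤ 1000
      rw [abs_le]; constructor <;> linarith

theorem sigStrong (hBord : StrongOfBordStatement) (hDer : SigDerStatement)
    (hId : BordIdStatement) (hDelta : DeltaStatement) (hReg : SigRegStatement) :
    SigStrongStatement := by
  obtain ⟨hR1, hR2, hR3, hR4, hR5, hR6, hR7, hR8⟩ := hReg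
  obtain ⟨k, hk, hΔ⟩ := hDelta
  intro ρ l hρ hl hl'
  set A : ℝ := 200 + 10 / ρ ^ 2 with hA
  have hA0 : 200 ≤ A := by
    have : 0 < 10 / ρ ^ 2 := by positivity
    linarith
  have hAρ : 10 ≤ A * ρ ^ 2 := by
    have h1 : 10 / ρ ^ 2 * ρ ^ 2 = 10 := by field_simp
    rw [hA, add_mul, h1]
    linarith [sq_nonneg ρ]
  refine ⟨294912 * k / (100 * 1000 ^ 4 * (1600 * A)), by positivity, ?_⟩
  intro x hFS0 hx hL hor hnn
  obtain ⟨hq, hq2, hmm⟩ := inner_facts hFS0 hx hL (hR1 x)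
  set q : ℝ := √(tt x) with hqdef
  clear_value q
  have hxP : x ∈ Prism := fun j => (hx j).le
  have hn4 : nn x < 4 := hR3 x hxP hFS0
  have hnorm : ‖x‖ ≤ 5 := hR6 x hFS0 hn4.le
  have hnsq := norm_sq_E3 x
  have hn25 : x 0 ^ 2 + x 1 ^ 2 + x 2 ^ 2 ≤ 25 := by
    rw [← hnsq]
    have := pow_le_pow_left₀ (norm_nonneg x) hnorm 2
    linarith
  have hnndef : nn x = x 0 ^ 2 + x 1 ^ 2 := rfl
  have hcc := abs_cc_le hn4.le
  obtain ⟨hcc1, hcc2⟩ := abs_le.1 hcc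
  have httdef : tt x = 4 - 3 * nn x - cc x := rfl
  have hq2' : q ≤ 2 := by
    have h1 : q ^ 2 ≤ 2 ^ 2 := by linarith
    exact (abs_le.1 (abs_le_of_sq_le_sq h1 (by norm_num))).2
  obtain ⟨e, he⟩ : ∃ e, e = 2 - q := ⟨_, rfl⟩
  have h4e : 4 * e - e ^ 2 = 3 * nn x + cc x := by
    rw [he]
    linear_combination -hq2 - httdef
  have hw2 : x 2 ^ 2 = 1 + cc x + e ^ 2 := by
    have h1 : mm x = x 2 ^ 2 + 3 * nn x - 9 := rfl
    rw [he]
    linear_combination -h1 + hmm - hq2 - httdef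
  have hΔ' := hΔ e (nn x) (cc x) (by linarith) (by linarith) hnn.le h4e.symm (cc_sq_le x)
    (by rw [← hw2]; positivity)
  have hId' := hId x q hq2.symm hmm
  rw [← he] at hId'
  -- bounds
  have s0 : 0 ≤ x 0 ^ 2 := sq_nonneg _
  have s1 : 0 ≤ x 1 ^ 2 := sq_nonneg _
  have s2 : 0 ≤ x 2 ^ 2 := sq_nonneg _
  have hx0 : |x 0| ≤ 2 := abs_le_of_sq_le_sq (by linarith) (by norm_num)
  have hx1 : |x 1| ≤ 2 := abs_le_of_sq_le_sq (by linarith) (by norm_num)
  have hx2 : |x 2| ≤ 5 := abs_le_of_sq_le_sq (by linarith) (by norm_num)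
  have hm8 : |mm x| ≤ 8 := by
    rw [hmm, abs_le]
    constructor <;> linarith
  obtain ⟨hg, hh⟩ := gh_bounds hx0 hx1 hx2 hm8
  have hκpos : 0 < 294912 * q * (k * nn x) := by positivity
  -- the weight
  have hflc : flc l x ≤ 200 := flc_le hl hl' hnn.le hn4 hcc hx2
  have hflc0 : 0 ≤ flc l x := by unfold flc; positivity
  have hflr0 : 0 ≤ flr x := by
    unfold flr
    have := nn_nonneg x
    positivity
  have hflr : flr x ≤ A * nn x := by
    unfold flr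
    rcases hor with h | h
    · have h1 : (x 2 - 1) ^ 2 ≤ 6 ^ 2 := by
        apply sq_le_of_abs
        obtain ⟨h5, h6⟩ := abs_le.1 hx2
        rw [abs_le]
        constructor <;> linarith
      have h2 : A * (4 * ρ ^ 2) ≤ A * nn x := mul_le_mul_of_nonneg_left h (by linarith)
      linarith
    · have h1 := roof_est hnn hn4 hcc hq he h4e (by linarith) h hw2
      have h2 : 200 * nn x ≤ A * nn x := mul_le_mul_of_nonneg_right hA0 hnn.le
      linarith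
  have hϖ0 : 0 ≤ varpi l x := by
    unfold varpi
    positivity
  have hϖ : varpi l x ≤ 8 * q * 200 * (A * nn x) := by
    unfold varpi
    have h1 : tt x ^ 2 ≤ 8 * q := by
      rw [← hq2]
      have h3 : q ^ 3 ≤ 2 ^ 3 := pow_le_pow_left₀ hq.le hq2' 3
      calc (q ^ 2) ^ 2 = q ^ 3 * q := by ring
        _ ≤ 2 ^ 3 * q := mul_le_mul_of_nonneg_right h3 hq.le
        _ = 8 * q := by norm_num
    have h2 : tt x ^ 2 * flc l x ≤ 8 * q * 200 :=
      mul_le_mul h1 hflc hflc0 (by positivity)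
    exact mul_le_mul h2 hflr hflr0 (by positivity)
  have hbord : bord (gFS x) (hFS x) ≤ -(294912 * q * (k * nn x)) := by
    rw [hId']
    have h1 := mul_le_mul_of_nonneg_left hΔ' (show (0 : ℝ) ≤ 294912 * q by positivity)
    linarith
  refine hBord FS x (gFS x) (hFS x) (294912 * q * (k * nn x)) 1000 _ (varpi l)
    (hDer x).1 (hDer x).2 ?_ ?_ hbord (by norm_num) hg hh ?_ ?_
  · intro i j
    fin_cases i <;> fin_cases j <;> rfl
  · linarith
  · positivity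
  · have hA1 : (0 : ℝ) < 1600 * A := by positivity
    have h1 : 294912 * k / (100 * 1000 ^ 4 * (1600 * A)) * varpi l x ≤
        294912 * k / (100 * 1000 ^ 4 * (1600 * A)) * (8 * q * 200 * (A * nn x)) :=
      mul_le_mul_of_nonneg_left hϖ (by positivity)
    have h2 : 294912 * k / (100 * 1000 ^ 4 * (1600 * A)) * (8 * q * 200 * (A * nn x)) *
        (100 * 1000 ^ 4) = 294912 * q * (k * nn x) := by
      field_simp
      ring
    rw [← h2]
    exact mul_le_mul_of_nonneg_right h1 (by norm_num)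

end Pool.Agent.Tight.H42
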